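import Pool.Agent.Helper80_RF.CylEx1

/-!
# CYLEX: the global doubly warped cylinder metrics (helper80, squad MP_a23110_gt), part 2
-/

noncomputable section

open scoped ContDiff Topology RealInnerProductSpace
set_option maxSynthPendingDepth 3
set_option linter.unusedSectionVars false
open Set

namespace Pool.Agent.RF.H80

open Pool.Agent.RF

variable {α β : Type} [Fintype α] [DecidableEq α] [Fintype β] [DecidableEq β]

/-- embedding of the first factor -/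
def emL : E α →L[ℝ] E (α ⊕ β) :=
  LinearMap.toContinuousLinearMap
    { toFun := fun x => WithLp.toLp 2 (Sum.elim (fun i => x i) (fun _ => 0))
      map_add' := fun x y => by
        ext i
        rcases i with i | i <;> simp
      map_smul' := fun c x => by
        ext i
        rcases i with i | i <;> simp }

/-- embedding of the second factor -/
def emR : E β →L[ℝ] E (α ⊕ β) :=
  LinearMap.toContinuousLinearMap
    { toFun := fun x => WithLp.toLp 2 (Sum.elim (fun _ => 0) (fun i => x i))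
      map_add' := fun x y => by
        ext i
        rcases i with i | i <;> simp
      map_smul' := fun c x => by
        ext i
        rcases i with i | i <;> simp }

/-- embedding `E α → E (Option α)` -/
def emS : E α →L[ℝ] E (Option α) :=
  LinearMap.toContinuousLinearMap
    { toFun := fun x => WithLp.toLp 2 (fun o => Option.elim o 0 (fun a => x a))
      map_add' := fun x y => by
        ext i
        rcases i with _ | i <;> simp
      map_smul' := fun c x => by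
        ext i
        rcases i with _ | i <;> simp }

@[simp] theorem prl_emL (a : E α) : prl (emL a : E (α ⊕ β)) = a := by
  ext i; simp [emL]
@[simp] theorem prr_emL (a : E α) : prr (emL a : E (α ⊕ β)) = 0 := by
  ext i; simp [emL]
@[simp] theorem prl_emR (b : E β) : prl (emR b : E (α ⊕ β)) = 0 := by
  ext i; simp [emR]
@[simp] theorem prr_emR (b : E β) : prr (emR b : E (α ⊕ β)) = b := by
  ext i; simp [emR]

/-- the pole -/
def pol : E (Option α) := EuclideanSpace.single none (1:ℝ)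

theorem inner_pol (v : E α) : ⟪(pol : E (Option α)), emS v⟫ = 0 := by
  simp [pol, emS, EuclideanSpace.inner_single_left]

theorem inner_pol' (v : E α) : ⟪emS v, (pol : E (Option α))⟫ = 0 := by
  rw [real_inner_comm, inner_pol]

theorem inner_pol_pol : ⟪(pol : E (Option α)), pol⟫ = 1 := by
  simp [pol, EuclideanSpace.inner_single_left]

theorem inner_emS (v w : E α) : ⟪emS v, emS w⟫ = ⟪v, w⟫ := by
  simp [emS, PiLp.inner_apply, Fintype.sum_option]

/-- hemisphere chart -/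
def hem (u : E α) : E (Option α) := √(1 - ‖u‖ ^ 2) • pol + emS u

/-- its derivative -/
def dhem (u v : E α) : E (Option α) := (-(√(1 - ‖u‖ ^ 2))⁻¹ * ⟪u, v⟫) • pol + emS v

theorem hem_eq (u : E α) : hem u =
    WithLp.toLp 2 (fun o => Option.elim o (√(1 - ‖u‖ ^ 2)) (fun a => u a)) := by
  ext o
  rcases o with _ | o
  · simp [hem, pol, emS]
  · simp [hem, pol, emS]

theorem sq_sqrt_hem {u : E α} (hu : ‖u‖ ^ 2 < 1) : √(1 - ‖u‖ ^ 2) ^ 2 = 1 - ‖u‖ ^ 2 :=
  Real.sq_sqrt (by linarith)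

theorem inner_hem {u : E α} (hu : ‖u‖ ^ 2 < 1) : ⟪hem u, hem u⟫ = 1 := by
  unfold hem
  rw [inner_add_left, inner_add_right, inner_add_right, inner_smul_left, inner_smul_right,
    inner_smul_left, inner_smul_right, inner_pol, inner_pol', inner_pol_pol, inner_emS,
    real_inner_self_eq_norm_sq]
  have := sq_sqrt_hem hu
  simp only [conj_trivial]
  nlinarith

theorem inner_hem_dhem {u : E α} (hu : ‖u‖ ^ 2 < 1) (v : E α) : ⟪hem u, dhem u v⟫ = 0 := by
  unfold hem dhem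
  rw [inner_add_left, inner_add_right, inner_add_right, inner_smul_left, inner_smul_right,
    inner_smul_left, inner_smul_right, inner_pol, inner_pol', inner_pol_pol, inner_emS]
  have h1 : 0 < √(1 - ‖u‖ ^ 2) := Real.sqrt_pos.2 (by linarith)
  simp only [conj_trivial]
  field_simp
  ring

theorem inner_dhem {u : E α} (hu : ‖u‖ ^ 2 < 1) (v w : E α) : ⟪dhem u v, dhem u w⟫ =
    ⟪v, w⟫ + (1 - ‖u‖ ^ 2)⁻¹ * (⟪u, v⟫ * ⟪u, w⟫) := by
  unfold dhem
  rw [inner_add_left, inner_add_right, inner_add_right, inner_smul_left, inner_smul_right,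
    inner_smul_left, inner_smul_right, inner_pol, inner_pol', inner_pol_pol, inner_emS]
  have h1 : 0 < √(1 - ‖u‖ ^ 2) := Real.sqrt_pos.2 (by linarith)
  have h2 := sq_sqrt_hem hu
  have h3 : (√(1 - ‖u‖ ^ 2))⁻¹ * (√(1 - ‖u‖ ^ 2))⁻¹ = (1 - ‖u‖ ^ 2)⁻¹ := by
    rw [← mul_inv, ← sq, h2]
  simp only [conj_trivial]
  linear_combination (⟪u, v⟫ * ⟪u, w⟫) * h3

theorem hasFDerivAt_sq {V : Type*} [NormedAddCommGroup V] [InnerProductSpace ℝ V] {u : V}
    (hu : ‖u‖ ^ 2 < 1) :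
    HasFDerivAt (fun x : V => √(1 - ‖x‖ ^ 2)) (-((√(1 - ‖u‖ ^ 2))⁻¹ • innerSL ℝ u)) u := by
  have h1 : HasFDerivAt (fun x : V => 1 - ‖x‖ ^ 2) (-(2 • innerSL ℝ u)) u := by
    have := (hasStrictFDerivAt_norm_sq u).hasFDerivAt.const_sub 1
    simpa using this
  have h2 := h1.sqrt (by linarith : (1 - ‖u‖ ^ 2) ≠ 0)
  convert h2 using 1
  ext v
  simp
  ring

theorem hasFDerivAt_hem {u : E α} (hu : ‖u‖ ^ 2 < 1) :
    HasFDerivAt (hem : E α → E (Option α))
      ((-((√(1 - ‖u‖ ^ 2))⁻¹ • innerSL ℝ u)).smulRight pol + emS) u := by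
  unfold hem
  exact ((hasFDerivAt_sq hu).smul_const pol).add (emS.hasFDerivAt)

theorem contDiffOn_sq {V : Type*} [NormedAddCommGroup V] [InnerProductSpace ℝ V] :
    ContDiffOn ℝ ∞ (fun x : V => √(1 - ‖x‖ ^ 2)) {x | ‖x‖ ^ 2 < 1} := by
  apply ContDiffOn.sqrt
  · exact contDiffOn_const.sub (contDiff_norm_sq ℝ).contDiffOn
  · intro x hx
    have : ‖x‖ ^ 2 < 1 := hx
    have h : (0:ℝ) < 1 - ‖x‖ ^ 2 := by linarith
    exact h.ne'

theorem contDiffOn_hem :
    ContDiffOn ℝ ∞ (hem : E α → E (Option α)) {x | ‖x‖ ^ 2 < 1} := by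
  unfold hem
  have h1 : ContDiffOn ℝ ∞ (fun u : E α => √(1 - ‖u‖ ^ 2) • (pol : E (Option α)))
      {x | ‖x‖ ^ 2 < 1} := contDiffOn_sq.smul contDiffOn_const
  exact h1.add (emS : E α →L[ℝ] E (Option α)).contDiff.contDiffOn

theorem psiR_eq (R : E (Option α) ≃ₗᵢ[ℝ] E (Option α)) : (psiR R : E (α ⊕ β) → _) =
    fun y => emL (√(1 - ‖(prr y : E β)‖ ^ 2) • R (hem (prl y))) + emR (prr y) := by
  funext y
  ext i
  rcases i with i | i
  · simp [psiR, emL, emR, hem_eq]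
  · simp [psiR, emL, emR]

/-- the derivative of `psiR` -/
def dpsi (R : E (Option α) ≃ₗᵢ[ℝ] E (Option α)) (y v : E (α ⊕ β)) : E (Option α ⊕ β) :=
  emL ((-(√(1 - ‖(prr y : E β)‖ ^ 2))⁻¹ * ⟪(prr y : E β), prr v⟫) • R (hem (prl y)) +
    √(1 - ‖(prr y : E β)‖ ^ 2) • R (dhem (prl y) (prl v))) + emR (prr v)

theorem isOpen_DomG : IsOpen (DomG α β 1) := by
  unfold DomG
  apply IsOpen.inter
  · exact isOpen_lt ((continuous_norm.comp (prr : E (α ⊕ β) →L[ℝ] E β).continuous).pow 2)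
      continuous_const
  · exact isOpen_lt ((continuous_norm.comp (prl : E (α ⊕ β) →L[ℝ] E α).continuous).pow 2)
      continuous_const

theorem hasFDerivAt_psiR (R : E (Option α) ≃ₗᵢ[ℝ] E (Option α)) {y : E (α ⊕ β)}
    (hy : y ∈ DomG α β 1) :
    HasFDerivAt (psiR R : E (α ⊕ β) → E (Option α ⊕ β))
      ((emL).comp (√(1 - ‖(prr y : E β)‖ ^ 2) •
          ((R : E (Option α) →L[ℝ] E (Option α)).comp
            (((-((√(1 - ‖(prl y : E α)‖ ^ 2))⁻¹ • innerSL ℝ (prl y : E α))).smulRight pol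
              + emS).comp prl))
        + ((-((√(1 - ‖(prr y : E β)‖ ^ 2))⁻¹ • innerSL ℝ (prr y : E β))).comp prr).smulRight
          (R (hem (prl y)))) + (emR).comp prr) y := by
  rw [psiR_eq]
  have h1 : HasFDerivAt (fun y : E (α ⊕ β) => √(1 - ‖(prr y : E β)‖ ^ 2))
      ((-((√(1 - ‖(prr y : E β)‖ ^ 2))⁻¹ • innerSL ℝ (prr y : E β))).comp prr) y :=
    (hasFDerivAt_sq hy.1).comp y (prr : E (α ⊕ β) →L[ℝ] E β).hasFDerivAt
  have h2 : HasFDerivAt (fun y : E (α ⊕ β) => hem (prl y))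
      (((-((√(1 - ‖(prl y : E α)‖ ^ 2))⁻¹ • innerSL ℝ (prl y : E α))).smulRight pol
              + emS).comp prl) y :=
    (hasFDerivAt_hem hy.2).comp y (prl : E (α ⊕ β) →L[ℝ] E α).hasFDerivAt
  have h3 : HasFDerivAt (fun y : E (α ⊕ β) => R (hem (prl y)))
      ((R : E (Option α) →L[ℝ] E (Option α)).comp
        (((-((√(1 - ‖(prl y : E α)‖ ^ 2))⁻¹ • innerSL ℝ (prl y : E α))).smulRight pol
              + emS).comp prl)) y :=
    ((R : E (Option α) →L[ℝ] E (Option α)).hasFDerivAt).comp y h2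
  have h4 := h1.smul h3
  exact (((emL : E (Option α) →L[ℝ] E (Option α ⊕ β)).hasFDerivAt).comp y h4).add
    (((emR : E β →L[ℝ] E (Option α ⊕ β)).hasFDerivAt).comp y
      (prr : E (α ⊕ β) →L[ℝ] E β).hasFDerivAt)

theorem fderiv_psiR (R : E (Option α) ≃ₗᵢ[ℝ] E (Option α)) {y : E (α ⊕ β)}
    (hy : y ∈ DomG α β 1) (v : E (α ⊕ β)) :
    fderiv ℝ (psiR R : E (α ⊕ β) → E (Option α ⊕ β)) y v = dpsi R y v := by
  rw [(hasFDerivAt_psiR R hy).fderiv]
  unfold dpsi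
  have e : (√(1 - ‖(prr y : E β)‖ ^ 2) •
          ((R : E (Option α) →L[ℝ] E (Option α)).comp
            (((-((√(1 - ‖(prl y : E α)‖ ^ 2))⁻¹ • innerSL ℝ (prl y : E α))).smulRight pol
              + emS).comp prl))
        + ((-((√(1 - ‖(prr y : E β)‖ ^ 2))⁻¹ • innerSL ℝ (prr y : E β))).comp prr).smulRight
          (R (hem (prl y))) : E (α ⊕ β) →L[ℝ] E (Option α)) v =
      ((-(√(1 - ‖(prr y : E β)‖ ^ 2))⁻¹ * ⟪(prr y : E β), prr v⟫) • R (hem (prl y)) +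
    √(1 - ‖(prr y : E β)‖ ^ 2) • R (dhem (prl y) (prl v))) := by
    rw [add_comm]
    simp [dhem]
  have e2 : ∀ (A : E (α ⊕ β) →L[ℝ] E (Option α)),
      ((emL).comp A + (emR).comp prr : E (α ⊕ β) →L[ℝ] E (Option α ⊕ β)) v
        = emL (A v) + emR (prr v) := fun A => rfl
  rw [e2, e]

theorem contDiffOn_psiR (R : E (Option α) ≃ₗᵢ[ℝ] E (Option α)) :
    ContDiffOn ℝ ∞ (psiR R : E (α ⊕ β) → E (Option α ⊕ β)) (DomG α β 1) := by
  rw [psiR_eq]
  have h1 : ContDiffOn ℝ ∞ (fun y : E (α ⊕ β) => √(1 - ‖(prr y : E β)‖ ^ 2)) (DomG α β 1) :=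
    contDiffOn_sq.comp (prr : E (α ⊕ β) →L[ℝ] E β).contDiff.contDiffOn (fun y hy => hy.1)
  have h2 : ContDiffOn ℝ ∞ (fun y : E (α ⊕ β) => hem (prl y)) (DomG α β 1) :=
    contDiffOn_hem.comp (prl : E (α ⊕ β) →L[ℝ] E α).contDiff.contDiffOn (fun y hy => hy.2)
  have h3 : ContDiffOn ℝ ∞ (fun y : E (α ⊕ β) => R (hem (prl y))) (DomG α β 1) :=
    (R : E (Option α) →L[ℝ] E (Option α)).contDiff.comp_contDiffOn h2
  exact ((emL : E (Option α) →L[ℝ] E (Option α ⊕ β)).contDiff.comp_contDiffOn (h1.smul h3)).add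
    ((emR : E β →L[ℝ] E (Option α ⊕ β)).contDiff.comp_contDiffOn
      (prr : E (α ⊕ β) →L[ℝ] E β).contDiff.contDiffOn)

section vals

variable (R : E (Option α) ≃ₗᵢ[ℝ] E (Option α)) {y : E (α ⊕ β)}

theorem prl_psiR (y : E (α ⊕ β)) : (prl (psiR R y : E (Option α ⊕ β)) : E (Option α)) =
    √(1 - ‖(prr y : E β)‖ ^ 2) • R (hem (prl y)) := by
  rw [psiR_eq]; simp

theorem prr_psiR (y : E (α ⊕ β)) : (prr (psiR R y : E (Option α ⊕ β)) : E β) = prr y := by
  rw [psiR_eq]; simp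

theorem prl_dpsi (y v : E (α ⊕ β)) : (prl (dpsi R y v) : E (Option α)) =
    (-(√(1 - ‖(prr y : E β)‖ ^ 2))⁻¹ * ⟪(prr y : E β), prr v⟫) • R (hem (prl y)) +
    √(1 - ‖(prr y : E β)‖ ^ 2) • R (dhem (prl y) (prl v)) := by
  simp [dpsi]

theorem prr_dpsi (y v : E (α ⊕ β)) : (prr (dpsi R y v) : E β) = prr v := by
  simp [dpsi]

theorem norm_prl_psiR (hy : y ∈ DomG α β 1) :
    ‖(prl (psiR R y : E (Option α ⊕ β)) : E (Option α))‖ ^ 2 = 1 - ‖(prr y : E β)‖ ^ 2 := by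
  have h1 := hy.1
  rw [prl_psiR, norm_smul, mul_pow, R.norm_map, ← real_inner_self_eq_norm_sq (hem _),
    inner_hem hy.2, mul_one, Real.norm_eq_abs, sq_abs, Real.sq_sqrt (by linarith)]

theorem norm_psiR (hy : y ∈ DomG α β 1) : ‖(psiR R y : E (Option α ⊕ β))‖ = 1 := by
  have : ‖(psiR R y : E (Option α ⊕ β))‖ ^ 2 = 1 := by
    rw [norm_split, norm_prl_psiR R hy, prr_psiR]; ring
  have h := norm_nonneg (psiR R y : E (Option α ⊕ β))
  nlinarith

theorem tauX_psiR (hy : y ∈ DomG α β 1) : tauX (psiR R y : E (Option α ⊕ β)) =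
    ‖(prr y : E β)‖ ^ 2 := by
  unfold tauX
  rw [norm_psiR R hy, prr_psiR]; simp

theorem sqrt_pos_DomG (hy : y ∈ DomG α β 1) : 0 < √(1 - ‖(prr y : E β)‖ ^ 2) := by
  have h1 := hy.1
  exact Real.sqrt_pos.2 (by linarith)

theorem inner_prl_psi_dpsi (hy : y ∈ DomG α β 1) (v : E (α ⊕ β)) :
    ⟪(prl (psiR R y : E (Option α ⊕ β)) : E (Option α)), prl (dpsi R y v)⟫ =
      -⟪(prr y : E β), prr v⟫ := by
  have h1 := sqrt_pos_DomG hy
  rw [prl_psiR, prl_dpsi, inner_smul_left, inner_add_right, inner_smul_right, inner_smul_right,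
    R.inner_map_map, R.inner_map_map, inner_hem hy.2, inner_hem_dhem hy.2]
  simp only [conj_trivial]
  field_simp
  ring

theorem inner_prl_dpsi (hy : y ∈ DomG α β 1) (v w : E (α ⊕ β)) :
    ⟪(prl (dpsi R y v) : E (Option α)), prl (dpsi R y w)⟫ =
      (1 - ‖(prr y : E β)‖ ^ 2)⁻¹ * (⟪(prr y : E β), prr v⟫ * ⟪(prr y : E β), prr w⟫)
      + (1 - ‖(prr y : E β)‖ ^ 2) * (⟪(prl v : E α), prl w⟫ + (1 - ‖(prl y : E α)‖ ^ 2)⁻¹ *
        (⟪(prl y : E α), prl v⟫ * ⟪(prl y : E α), prl w⟫)) := by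
  have h1 := sqrt_pos_DomG hy
  have h2 : √(1 - ‖(prr y : E β)‖ ^ 2) * √(1 - ‖(prr y : E β)‖ ^ 2)
      = 1 - ‖(prr y : E β)‖ ^ 2 := by
    have := hy.1
    exact Real.mul_self_sqrt (by linarith)
  have h3 : (√(1 - ‖(prr y : E β)‖ ^ 2))⁻¹ * (√(1 - ‖(prr y : E β)‖ ^ 2))⁻¹
      = (1 - ‖(prr y : E β)‖ ^ 2)⁻¹ := by
    rw [← mul_inv, h2]
  rw [prl_dpsi, prl_dpsi, inner_add_left, inner_add_right, inner_add_right, inner_smul_left,
    inner_smul_left, inner_smul_left, inner_smul_left, inner_smul_right, inner_smul_right,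
    inner_smul_right, inner_smul_right, R.inner_map_map, R.inner_map_map, R.inner_map_map,
    R.inner_map_map, inner_hem hy.2, inner_hem_dhem hy.2, inner_dhem hy.2,
    real_inner_comm (hem (prl y)) (dhem (prl y) (prl v)), inner_hem_dhem hy.2]
  simp only [conj_trivial]
  linear_combination (⟪(prr y : E β), prr v⟫ * ⟪(prr y : E β), prr w⟫) * h3 +
    (⟪(prl v : E α), prl w⟫ + (1 - ‖(prl y : E α)‖ ^ 2)⁻¹ *
        (⟪(prl y : E α), prl v⟫ * ⟪(prl y : E α), prl w⟫)) * h2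

theorem omX_psi (hy : y ∈ DomG α β 1) (v : E (α ⊕ β)) :
    omX (psiR R y : E (Option α ⊕ β)) (dpsi R y v) = ⟪(prr y : E β), prr v⟫ := by
  rw [omX_apply, inner_split, inner_prl_psi_dpsi R hy, prr_psiR, prr_dpsi, norm_psiR R hy]
  simp

theorem pullb_psi {F₁ F₂ : ℝ → ℝ} (hy : y ∈ DomG α β 1) :
    pullb (Gcyl F₁ F₂ : E (Option α ⊕ β) → Bil (E (Option α ⊕ β))) (psiR R) y
      = gloc (etaF F₁) (AF F₂) y := by
  ext v w
  have h1 : ‖(prr y : E β)‖ ^ 2 < 1 := hy.1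
  have h1' : 1 - ‖(prr y : E β)‖ ^ 2 ≠ 0 := by
    have : 0 < 1 - ‖(prr y : E β)‖ ^ 2 := by linarith
    exact this.ne'
  rw [pullb_apply, fderiv_psiR R hy, fderiv_psiR R hy, Gcyl_apply, omX_psi R hy, omX_psi R hy,
    tauX_psiR R hy, norm_psiR R hy, sub_self, zero_add, inner_split (dpsi R y v),
    inner_prl_psi_dpsi R hy, inner_prl_psi_dpsi R hy, inner_prl_dpsi R hy, prr_dpsi, prr_dpsi,
    norm_prl_psiR R hy]
  simp only [gloc, g1, g3, hrd, etaF, AF, add_apply,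
    smul_apply, inL_apply, inR_apply, rk_apply, coL_apply, coR_apply,
    smul_eq_mul]
  field_simp
  ring

theorem inj_dpsi (hy : y ∈ DomG α β 1) :
    Function.Injective (fderiv ℝ (psiR R : E (α ⊕ β) → E (Option α ⊕ β)) y) := by
  have h1 : ‖(prr y : E β)‖ ^ 2 < 1 := hy.1
  have h2 : ‖(prl y : E α)‖ ^ 2 < 1 := hy.2
  have h1' : 0 < 1 - ‖(prr y : E β)‖ ^ 2 := by linarith
  have h2' : 0 < 1 - ‖(prl y : E α)‖ ^ 2 := by linarith
  rw [injective_iff_map_eq_zero]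
  intro v hv
  rw [fderiv_psiR R hy] at hv
  have e1 : (prr v : E β) = 0 := by rw [← prr_dpsi R y v, hv, map_zero]
  have e2 := inner_prl_dpsi R hy v v
  rw [hv, map_zero, inner_zero_left, e1, inner_zero_right, real_inner_self_eq_norm_sq] at e2
  apply eq_zero_of_pr
  · have h3 : 0 ≤ (1 - ‖(prr y : E β)‖ ^ 2) * ((1 - ‖(prl y : E α)‖ ^ 2)⁻¹ *
        (⟪(prl y : E α), prl v⟫ * ⟪(prl y : E α), prl v⟫)) := by
      have := mul_self_nonneg ⟪(prl y : E α), prl v⟫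
      positivity
    have h4 : (1 - ‖(prr y : E β)‖ ^ 2) * ‖(prl v : E α)‖ ^ 2 ≤ 0 := by nlinarith
    have h5 : ‖(prl v : E α)‖ ^ 2 ≤ 0 := by
      by_contra hcon
      push Not at hcon
      have := mul_pos h1' hcon
      linarith
    exact le_antisymm h5 (sq_nonneg _)
  · rw [e1]; simp

end vals

/-- an isometry taking one unit vector to another -/
theorem exists_isometry {V : Type*} [NormedAddCommGroup V] [InnerProductSpace ℝ V]
    [FiniteDimensional ℝ V] (a b : V) (h : ‖a‖ = ‖b‖) : ∃ R : V ≃ₗᵢ[ℝ] V, R a = b := by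
  refine ⟨(ℝ ∙ (a - b))ᗮ.reflection, ?_⟩
  exact Submodule.reflection_sub h

theorem exists_psi {x : E (Option α ⊕ β)} (hx : ‖x‖ = 1) (hτ : tauX x < 1) :
    ∃ (R : E (Option α) ≃ₗᵢ[ℝ] E (Option α)) (y : E (α ⊕ β)), y ∈ DomG α β 1 ∧
        psiR R y = x ∧ ‖(prr y : E β)‖ ^ 2 = tauX x := by
  have hτe : tauX x = ‖(prr x : E β)‖ ^ 2 := by unfold tauX; rw [hx]; simp
  have hn := norm_split x
  rw [hx, one_pow] at hn
  have hY : ‖(prl x : E (Option α))‖ ^ 2 = 1 - ‖(prr x : E β)‖ ^ 2 := by linarith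
  have hY' : 0 < ‖(prl x : E (Option α))‖ := by
    by_contra hcon
    have h0 : ‖(prl x : E (Option α))‖ = 0 := le_antisymm (not_lt.1 hcon) (norm_nonneg _)
    rw [h0] at hY
    rw [hτe] at hτ
    norm_num at hY
    linarith
  obtain ⟨R, hR⟩ := exists_isometry (pol : E (Option α)) (‖(prl x : E (Option α))‖⁻¹ • prl x)
    (by
      rw [norm_smul, norm_inv, norm_norm, inv_mul_cancel₀ hY'.ne']
      simp [pol])
  refine ⟨R, emR (prr x), ?_, ?_, ?_⟩
  · constructor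
    · show ‖(prr (emR (prr x) : E (α ⊕ β)) : E β)‖ ^ 2 < 1
      rw [prr_emR, ← hτe]; exact hτ
    · show ‖(prl (emR (prr x) : E (α ⊕ β)) : E α)‖ ^ 2 < 1
      rw [prl_emR]; simp
  · rw [psiR_eq]
    simp only [prr_emR, prl_emR]
    have e1 : hem (0 : E α) = pol := by simp [hem]
    rw [e1, hR, ← hY, Real.sqrt_sq hY'.le, smul_smul, mul_inv_cancel₀ hY'.ne', one_smul]
    ext i
    rcases i with i | i
    · simp [emL, emR]
    · simp [emL, emR]
  · rw [prr_emR, hτe]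

theorem cylEx : CylExStatement := by
  intro α β _ _ _ _ F₁ F₂ ρ h1 h2 hρ hF1 hF2 h3 h4
  refine ⟨isCyl_Gcyl h1 h2 hρ hF1 hF2 h3 h4, prof_F h1 h2 h3 h4, ?_, ?_, ?_⟩
  · intro R
    refine ⟨contDiffOn_psiR R, fun y hy => ⟨norm_psiR R hy, inj_dpsi R hy, pullb_psi R hy⟩⟩
  · intro x hx hτ
    exact exists_psi hx hτ
  · intro C₁ C₂ hC1 hC2 x hx
    exact Gcyl_bound hC1 hC2 hx

end Pool.Agent.RF.H80

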