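import Pool.Agent.Helper80_RF.CylEx2
import Pool.Agent.Helper36_RF.MainMod
import Pool.Agent.Helper36_RF.Chr

/-!
# INIT: positivity of the example metrics (helper80, squad MP_a23110_gt)
-/

noncomputable section

open scoped ContDiff Topology RealInnerProductSpace
set_option maxSynthPendingDepth 3
set_option linter.unusedSectionVars false
open Set

namespace Pool.Agent.RF.H80

open Pool.Agent.RF

theorem posSK_congr {ι : Type} [Fintype ι] [DecidableEq ι] {G H : E ι → Bil (E ι)} {x : E ι}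
    (h : G =ᶠ[𝓝 x] H) (hG : PosSK G x) : PosSK H x := by
  have hx : G x = H x := h.self_of_nhds
  intro e he φ h1 h2 h3
  have := hG e (by rw [hx]; exact he) φ h1 h2 h3
  have e2 : skf H x e φ = skf G x e φ := by
    unfold skf
    simp only [hx, riem_congr h]
  rw [e2]; exact this

theorem init (hC : CylExStatement) (hP : PosLocStatement) (hR : RoundPosStatement)
    (hS : SliceStatement) : InitStatement := by
  intro p F₁ F₂ ρ₁ hp hE hpos x hx
  obtain ⟨hcyl, hprof, hpsi, hex, -⟩ := hC (Fin p) (Fin 3) F₁ F₂ ρ₁ hE.s1 hE.s2 hE.lt hE.z1 hE.z2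
    hE.p1 hE.p2
  have hx0 : x ≠ 0 := by rintro rfl; simp at hx
  by_cases hτ : ρ₁ < tauX x
  · -- near the round part
    have hU : IsOpen {x : E (Option (Fin p) ⊕ Fin 3) | x ∈ Om (Option (Fin p) ⊕ Fin 3) ∧
        ρ₁ < tauX x} := by
      have hc : ContinuousOn (tauX : E (Option (Fin p) ⊕ Fin 3) → ℝ)
          (Om (Option (Fin p) ⊕ Fin 3)) := contDiffOn_tauX.continuousOn
      exact hc.isOpen_inter_preimage isOpen_ne isOpen_Ioi
    refine hR (Option (Fin p) ⊕ Fin 3) (Fin p ⊕ Fin 3) (Gcyl F₁ F₂)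
      {x | x ∈ Om (Option (Fin p) ⊕ Fin 3) ∧ ρ₁ < tauX x} hU (fun x hx => hx.1) ?_ x ⟨hx0, hτ⟩
    intro y hy
    unfold Gcyl
    rw [hE.z1 _ hy.2.le, hE.z2 _ hy.2.le, zero_smul, zero_mul, zero_smul, add_zero, add_zero]
  · have hτ1 : tauX x < 1 := lt_of_le_of_lt (not_lt.1 hτ) hE.lt
    obtain ⟨R, y, hy, hyx, -⟩ := hex x hx hτ1
    obtain ⟨hsm, hall⟩ := hpsi R
    have hcard : Fintype.card (Option (Fin p) ⊕ Fin 3) = Fintype.card (Fin p ⊕ Fin 3) + 1 := by
      simp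
    obtain ⟨-, -, hsl⟩ := hS (Option (Fin p) ⊕ Fin 3) (Fin p ⊕ Fin 3) (Gcyl F₁ F₂) (psiR R)
      (DomG (Fin p) (Fin 3) 1) hcard hcyl isOpen_DomG hsm (fun y hy => (hall y hy).1)
      (fun y hy => (hall y hy).2.1)
    rw [← hyx, ← (hsl y hy).2.1]
    have hyτ : ‖(prr y : E (Fin 3))‖ ^ 2 ∈ Ico (0:ℝ) 1 := ⟨sq_nonneg _, hy.1⟩
    have h1 := hP (Fin p) (Fin 3) (etaF F₁) (AF F₂) 1 hprof (by simp; omega) (by simp) y hy
      (by
        have := hpos _ hyτ
        have e3 : ((Fintype.card (Fin 3) : ℝ) - 1) = 2 := by norm_num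
        rw [e3, Fintype.card_fin]
        exact this)
    refine posSK_congr ?_ h1
    filter_upwards [isOpen_DomG.mem_nhds hy] with z hz
    exact ((hall z hz).2.2).symm

end Pool.Agent.RF.H80
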