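import Pool.Agent.Helper36_RF.ClSt

/-!
# ZORN2: maximal Ricci flows, classical formulation (helper80, squad MP_a23110_gt)
-/

noncomputable section

open scoped ContDiff Topology
open Set Filter

namespace Pool.Agent.SecondKind.H80

open Pool.Agent.SecondKind

variable {n : ℕ}

theorem interval_mono {a b : EReal} (h : a ≤ b) : interval a ⊆ interval b :=
  fun _ ht => ⟨ht.1, ht.2.trans_le h⟩

theorem isOpen_lt_coe (a : EReal) : IsOpen {t : ℝ | (t : EReal) < a} :=
  isOpen_Iio.preimage continuous_coe_real_ereal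

/-! ### Components depend only on the values on tangent vectors -/

theorem tangent_param {U : Set (Fin n → ℝ)} {ψ : (Fin n → ℝ) → Fin (n + 1) → ℝ}
    (h : IsParam U ψ) {y : Fin n → ℝ} (hy : y ∈ U) (v : Fin n → ℝ) :
    Tangent (ψ y) (fderiv ℝ ψ y v) := by
  refine ⟨h.sphere y hy, ?_⟩
  have hd : DifferentiableAt ℝ ψ y :=
    ((h.smooth.contDiffAt (h.isOpen.mem_nhds hy)).differentiableAt (by simp))
  have hd1 : HasFDerivAt ψ (fderiv ℝ ψ y) y := hd.hasFDerivAt
  have hi : ∀ i, HasFDerivAt (fun z => ψ z i)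
      ((ContinuousLinearMap.proj (R := ℝ) (φ := fun _ : Fin (n + 1) => ℝ) i).comp
        (fderiv ℝ ψ y)) y := fun i =>
    (ContinuousLinearMap.proj (R := ℝ) (φ := fun _ : Fin (n + 1) => ℝ) i).hasFDerivAt.comp y hd1
  have hs : HasFDerivAt (fun z => ∑ i, ψ z i * ψ z i)
      (∑ i, (ψ y i • ((ContinuousLinearMap.proj (R := ℝ) (φ := fun _ : Fin (n + 1) => ℝ) i).comp
        (fderiv ℝ ψ y)) + ψ y i • ((ContinuousLinearMap.proj (R := ℝ)
        (φ := fun _ : Fin (n + 1) => ℝ) i).comp (fderiv ℝ ψ y)))) y :=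
    HasFDerivAt.fun_sum fun i _ => (hi i).mul (hi i)
  have hc : HasFDerivAt (fun z => ∑ i, ψ z i * ψ z i) (0 : (Fin n → ℝ) →L[ℝ] ℝ) y := by
    apply (hasFDerivAt_const (1 : ℝ) y).congr_of_eventuallyEq
    filter_upwards [h.isOpen.mem_nhds hy] with z hz
    have := h.sphere z hz
    unfold OnSphere at this
    simpa [sq] using this
  have heq := hs.unique hc
  have hv := congrArg (fun L : (Fin n → ℝ) →L[ℝ] ℝ => L v) heq
  simp only [ContinuousLinearMap.sum_apply, ContinuousLinearMap.add_apply,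
    ContinuousLinearMap.smul_apply, ContinuousLinearMap.comp_apply,
    ContinuousLinearMap.proj_apply, smul_eq_mul, ContinuousLinearMap.zero_apply] at hv
  rw [Finset.sum_add_distrib] at hv
  linarith

theorem comp_congr {g g' : Form n} (h : SameForm g g') {U : Set (Fin n → ℝ)}
    {ψ : (Fin n → ℝ) → Fin (n + 1) → ℝ} (hp : IsParam U ψ) {y : Fin n → ℝ} (hy : y ∈ U) :
    comp g ψ y = comp g' ψ y := by
  funext i j
  exact h _ _ _ (tangent_param hp hy _) (tangent_param hp hy _)

/-! ### The Ricci tensor depends only on the germ -/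

theorem pd_congr {U : Set (Fin n → ℝ)} (hU : IsOpen U) {f f' : (Fin n → ℝ) → ℝ}
    (h : ∀ y ∈ U, f y = f' y) (k : Fin n) {y : Fin n → ℝ} (hy : y ∈ U) :
    pd k f y = pd k f' y := by
  unfold pd
  have : f =ᶠ[𝓝 y] f' := by
    filter_upwards [hU.mem_nhds hy] with z hz using h z hz
  rw [this.fderiv_eq]

theorem christoffel_congr {U : Set (Fin n → ℝ)} (hU : IsOpen U) {h h' : Coord n}
    (he : ∀ y ∈ U, h y = h' y) (k i j : Fin n) {y : Fin n → ℝ} (hy : y ∈ U) :
    christoffel h k i j y = christoffel h' k i j y := by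
  unfold christoffel
  apply Finset.sum_congr rfl
  intro l _
  have h1 : inv h k l y = inv h' k l y := by
    unfold inv
    rw [he y hy]
  have h2 : ∀ a b c : Fin n, pd a (fun z => h z b c) y = pd a (fun z => h' z b c) y := by
    intro a b c
    exact pd_congr hU (fun z hz => by rw [he z hz]) a hy
  rw [h1, h2, h2, h2]

theorem curv_congr {U : Set (Fin n → ℝ)} (hU : IsOpen U) {h h' : Coord n}
    (he : ∀ y ∈ U, h y = h' y) (i j k m : Fin n) {y : Fin n → ℝ} (hy : y ∈ U) :
    curv h i j k m y = curv h' i j k m y := by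
  unfold curv
  have h1 : ∀ a b c : Fin n, christoffel h a b c y = christoffel h' a b c y :=
    fun a b c => christoffel_congr hU he a b c hy
  have h2 : ∀ l a b c : Fin n, pd l (christoffel h a b c) y = pd l (christoffel h' a b c) y :=
    fun l a b c => pd_congr hU (fun z hz => christoffel_congr hU he a b c hz) l hy
  simp only [h1, h2]

theorem ricci_congr {U : Set (Fin n → ℝ)} (hU : IsOpen U) {h h' : Coord n}
    (he : ∀ y ∈ U, h y = h' y) (i j : Fin n) {y : Fin n → ℝ} (hy : y ∈ U) :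
    ricci h i j y = ricci h' i j y := by
  unfold ricci
  apply Finset.sum_congr rfl
  intro k _
  exact curv_congr hU he k i j k hy

/-! ### Zorn's lemma -/

/-- extension relation -/
def Ext (a b : EReal × (ℝ → Form n)) : Prop :=
  a.1 ≤ b.1 ∧ ∀ t ∈ interval a.1, b.2 t = a.2 t

theorem zorn : ZornStatement := by
  intro n T g hT hg
  classical
  let α := {p : EReal × (ℝ → Form n) //
    IsRicciFlow p.1 p.2 ∧ (T : EReal) ≤ p.1 ∧ ∀ t ∈ Ico 0 T, p.2 t = g t}
  let r : α → α → Prop := fun a b => Ext a.1 b.1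
  have hr : ∀ {a b c : α}, r a b → r b c → r a c := by
    intro a b c hab hbc
    exact ⟨hab.1.trans hbc.1, fun t ht => (hbc.2 t (interval_mono hab.1 ht)).trans (hab.2 t ht)⟩
  obtain ⟨m, hm⟩ : ∃ m : α, ∀ a : α, r m a → r a m := by
    refine exists_maximal_of_chains_bounded (r := r) ?_ hr
    intro c hc
    by_cases hne : c = ∅
    · refine ⟨⟨((T : EReal), g), hg, le_rfl, fun t _ => rfl⟩, fun a ha => ?_⟩
      rw [hne] at ha
      exact absurd ha (notMem_empty _)
    · obtain ⟨a₀, ha₀⟩ := nonempty_iff_ne_empty.2 hne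
      let S : EReal := sSup ((fun a : α => a.1.1) '' c)
      let G : ℝ → Form n := fun t =>
        if h : ∃ a : α, a ∈ c ∧ t ∈ interval a.1.1 then h.choose.1.2 t else g t
      have hle : ∀ a ∈ c, a.1.1 ≤ S := fun a ha => le_sSup ⟨a, ha, rfl⟩
      have hG : ∀ a ∈ c, ∀ t ∈ interval a.1.1, G t = a.1.2 t := by
        intro a ha t ht
        have h : ∃ a : α, a ∈ c ∧ t ∈ interval a.1.1 := ⟨a, ha, ht⟩
        have e : G t = h.choose.1.2 t := dif_pos h
        rw [e]
        obtain ⟨h1, h2⟩ := h.choose_spec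
        by_cases hab : h.choose = a
        · rw [hab]
        · rcases hc h1 ha hab with h3 | h3
          · exact (h3.2 t h2).symm
          · exact h3.2 t ht
      have hex : ∀ t ∈ interval S, ∃ a ∈ c, t ∈ interval a.1.1 := by
        intro t ht
        obtain ⟨b, ⟨a, ha, rfl⟩, hb⟩ := lt_sSup_iff.1 ht.2
        exact ⟨a, ha, ht.1, hb⟩
      have hflow : IsRicciFlow S G := by
        refine ⟨?_, ?_, ?_⟩
        · intro t ht
          obtain ⟨a, ha, hta⟩ := hex t ht
          rw [hG a ha t hta]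
          exact a.2.1.metric t hta
        · intro U ψ hp i j q hq
          obtain ⟨a, ha, hta⟩ := hex q.1 hq.1
          have h1 := (a.2.1.smooth U ψ hp i j) q ⟨hta, hq.2⟩
          have h2 : ContDiffWithinAt ℝ ∞ (fun q : ℝ × (Fin n → ℝ) => comp (G q.1) ψ q.2 i j)
              (interval a.1.1 ×ˢ U) q := by
            apply h1.congr
            · intro z hz
              rw [hG a ha z.1 hz.1]
            · rw [hG a ha q.1 hta]
          apply h2.mono_of_mem_nhdsWithin
          have hopen : IsOpen {z : ℝ × (Fin n → ℝ) | (z.1 : EReal) < a.1.1} :=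
            (isOpen_lt_coe a.1.1).preimage continuous_fst
          have hmem : {z : ℝ × (Fin n → ℝ) | (z.1 : EReal) < a.1.1} ∈ 𝓝 q :=
            hopen.mem_nhds hta.2
          filter_upwards [self_mem_nhdsWithin, mem_nhdsWithin_of_mem_nhds hmem] with z hz hz2
          exact ⟨⟨hz.1.1, hz2⟩, hz.2⟩
        · intro U ψ hp t ht y hy i j
          obtain ⟨a, ha, hta⟩ := hex t ht
          have h1 := a.2.1.flow U ψ hp t hta y hy i j
          have h2 : HasDerivWithinAt (fun s => comp (G s) ψ y i j)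
              (-2 * ricci (comp (G t) ψ) i j y) (interval a.1.1) t := by
            rw [hG a ha t hta]
            apply h1.congr
            · intro s hs
              rw [hG a ha s hs]
            · rw [hG a ha t hta]
          apply h2.mono_of_mem_nhdsWithin
          have hmem : {s : ℝ | (s : EReal) < a.1.1} ∈ 𝓝 t := (isOpen_lt_coe a.1.1).mem_nhds hta.2
          filter_upwards [self_mem_nhdsWithin, mem_nhdsWithin_of_mem_nhds hmem] with s hs hs2
          exact ⟨hs.1, hs2⟩
      refine ⟨⟨(S, G), hflow, a₀.2.2.1.trans (hle a₀ ha₀), ?_⟩, fun a ha => ⟨hle a ha, hG a ha⟩⟩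
      intro t ht
      have ht2 : t ∈ interval a₀.1.1 :=
        ⟨ht.1, lt_of_lt_of_le (by exact_mod_cast ht.2) a₀.2.2.1⟩
      show G t = g t
      rw [hG a₀ ha₀ t ht2]
      exact a₀.2.2.2 t ht
  refine ⟨m.1.1, m.1.2, m.2.2.1, ⟨m.2.1, ?_⟩, m.2.2.2⟩
  intro T' g' hTT hg' hext
  let g2 : ℝ → Form n := fun t => if t ∈ interval m.1.1 then m.1.2 t else g' t
  have hg2m : ∀ t ∈ interval m.1.1, g2 t = m.1.2 t := fun t ht => if_pos ht
  have hcomp : ∀ U ψ, IsParam U ψ → ∀ t, ∀ y ∈ U, comp (g2 t) ψ y = comp (g' t) ψ y := by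
    intro U ψ hp t y hy
    by_cases ht : t ∈ interval m.1.1
    · rw [hg2m t ht]
      exact (comp_congr (hext t ht) hp hy).symm
    · have e : g2 t = g' t := if_neg ht
      rw [e]
  have hflow2 : IsRicciFlow T' g2 := by
    refine ⟨?_, ?_, ?_⟩
    · intro t ht
      by_cases htm : t ∈ interval m.1.1
      · rw [hg2m t htm]
        exact m.2.1.metric t htm
      · have e : g2 t = g' t := if_neg htm
        rw [e]
        exact hg'.metric t ht
    · intro U ψ hp i j
      apply (hg'.smooth U ψ hp i j).congr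
      intro q hq
      rw [hcomp U ψ hp q.1 q.2 hq.2]
    · intro U ψ hp t ht y hy i j
      have h1 := hg'.flow U ψ hp t ht y hy i j
      have e : ricci (comp (g2 t) ψ) i j y = ricci (comp (g' t) ψ) i j y :=
        ricci_congr hp.isOpen (fun z hz => hcomp U ψ hp t z hz) i j hy
      rw [e]
      apply h1.congr
      · intro s _
        rw [hcomp U ψ hp s y hy]
      · rw [hcomp U ψ hp t y hy]
  have h1 : IsRicciFlow T' g2 ∧ (T : EReal) ≤ T' ∧ ∀ t ∈ Ico 0 T, g2 t = g t := by
    refine ⟨hflow2, m.2.2.1.trans hTT.le, fun t ht => ?_⟩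
    have ht2 : t ∈ interval m.1.1 := ⟨ht.1, lt_of_lt_of_le (by exact_mod_cast ht.2) m.2.2.1⟩
    rw [hg2m t ht2]
    exact m.2.2.2 t ht
  have h2 := hm ⟨(T', g2), h1⟩ ⟨hTT.le, hg2m⟩
  exact absurd h2.1 (not_le.2 hTT)

end Pool.Agent.SecondKind.H80
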