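import Pool.Agent.Helper36_RF.Ex

/-!
# CYLEX: the global doubly warped cylinder metrics (helper80, squad MP_a23110_gt), part 1
-/

noncomputable section

open scoped ContDiff Topology RealInnerProductSpace
set_option maxSynthPendingDepth 3
set_option linter.unusedSectionVars false
open Set

namespace Pool.Agent.RF.H80

open Pool.Agent.RF

variable {α β : Type} [Fintype α] [DecidableEq α] [Fintype β] [DecidableEq β]

theorem inner_split (x v : E (α ⊕ β)) :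
    ⟪x, v⟫ = ⟪(prl x : E α), prl v⟫ + ⟪(prr x : E β), prr v⟫ := by
  simp only [PiLp.inner_apply, Fintype.sum_sum_type, prl_apply, prr_apply]

theorem norm_split (x : E (α ⊕ β)) : ‖x‖ ^ 2 = ‖(prl x : E α)‖ ^ 2 + ‖(prr x : E β)‖ ^ 2 := by
  rw [← real_inner_self_eq_norm_sq, ← real_inner_self_eq_norm_sq, ← real_inner_self_eq_norm_sq,
    inner_split]

theorem eq_zero_of_pr {v : E (α ⊕ β)} (h1 : ‖(prl v : E α)‖ ^ 2 = 0)
    (h2 : ‖(prr v : E β)‖ ^ 2 = 0) : v = 0 := by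
  have : ‖v‖ ^ 2 = 0 := by rw [norm_split, h1, h2, add_zero]
  simpa using this

/-- the positivity inequality -/
theorem pos_aux {X Y Z P S p s F1 F2 : ℝ} (hX : X = Y + Z) (hY : 0 < Y) (hZ : 0 ≤ Z)
    (hP : 0 ≤ P) (hS : 0 ≤ S) (hp : p ^ 2 ≤ Y * P) (hs : s ^ 2 ≤ Z * S)
    (h1 : 0 < 1 + F1 * (Y * Z / X ^ 2)) (h2 : 0 < 1 + F2 * (Y / X)) (hne : 0 < P + S) :
    0 < (P + S) / X + F1 * ((Y * s - Z * p) / X ^ 2) ^ 2
      + F2 * (X ^ 2)⁻¹ * (Y * P - p ^ 2) := by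
  have hXp : 0 < X := by rw [hX]; linarith
  have hX0 : X ≠ 0 := hXp.ne'
  have hY0 : Y ≠ 0 := hY.ne'
  rcases hZ.eq_or_lt with hZ | hZ
  · -- Z = 0
    subst hZ
    have hs0 : s = 0 := by nlinarith [sq_nonneg s]
    subst hs0
    have hXY : X = Y := by rw [hX]; ring
    subst hXY
    have e : (P + S) / X + F1 * ((X * 0 - 0 * p) / X ^ 2) ^ 2 + F2 * (X ^ 2)⁻¹ * (X * P - p ^ 2)
        = (S + ((1 + F2 * (X / X)) * (X * P - p ^ 2) + p ^ 2) / X) / X := by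
      field_simp; ring
    rw [e]
    apply div_pos _ hXp
    have hq : 0 ≤ X * P - p ^ 2 := by linarith
    rcases hq.eq_or_lt with hq | hq
    · rw [← hq, mul_zero, zero_add]
      have hpp : p ^ 2 = X * P := by linarith
      rw [hpp, mul_div_cancel_left₀ _ hX0]
      linarith
    · have : 0 < (1 + F2 * (X / X)) * (X * P - p ^ 2) := mul_pos h2 hq
      have : 0 < ((1 + F2 * (X / X)) * (X * P - p ^ 2) + p ^ 2) / X :=
        div_pos (by nlinarith [sq_nonneg p]) hXp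
      linarith
  · have hZ0 : Z ≠ 0 := hZ.ne'
    have hYZ : 0 < Y * Z := mul_pos hY hZ
    have e : (P + S) / X + F1 * ((Y * s - Z * p) / X ^ 2) ^ 2 + F2 * (X ^ 2)⁻¹ * (Y * P - p ^ 2)
        = ((Z * S - s ^ 2) / Z + (1 + F2 * (Y / X)) * (Y * P - p ^ 2) / Y
          + (1 + F1 * (Y * Z / X ^ 2)) * (Y * s - Z * p) ^ 2 / (X * (Y * Z))
          + (p + s) ^ 2 / X) / X := by
      have hYZ0 : Y + Z ≠ 0 := by rw [← hX]; exact hX0
      subst hX
      field_simp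
      ring
    rw [e]
    apply div_pos _ hXp
    have t1 : 0 ≤ (Z * S - s ^ 2) / Z := div_nonneg (by linarith) hZ.le
    have t2 : 0 ≤ (1 + F2 * (Y / X)) * (Y * P - p ^ 2) / Y :=
      div_nonneg (mul_nonneg h2.le (by linarith)) hY.le
    have t3 : 0 ≤ (1 + F1 * (Y * Z / X ^ 2)) * (Y * s - Z * p) ^ 2 / (X * (Y * Z)) :=
      div_nonneg (mul_nonneg h1.le (sq_nonneg _)) (mul_pos hXp hYZ).le
    have t4 : 0 ≤ (p + s) ^ 2 / X := div_nonneg (sq_nonneg _) hXp.le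
    by_contra hcon
    have z1 : (Z * S - s ^ 2) / Z = 0 := by linarith
    have z2 : (1 + F2 * (Y / X)) * (Y * P - p ^ 2) / Y = 0 := by linarith
    have z3 : (1 + F1 * (Y * Z / X ^ 2)) * (Y * s - Z * p) ^ 2 / (X * (Y * Z)) = 0 := by linarith
    have z4 : (p + s) ^ 2 / X = 0 := by linarith
    have w1 : Z * S - s ^ 2 = 0 := by
      rcases div_eq_zero_iff.1 z1 with h | h
      · exact h
      · exact absurd h hZ0
    have w2 : Y * P - p ^ 2 = 0 := by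
      rcases div_eq_zero_iff.1 z2 with h | h
      · rcases mul_eq_zero.1 h with h | h
        · exact absurd h h2.ne'
        · exact h
      · exact absurd h hY0
    have w3 : Y * s - Z * p = 0 := by
      rcases div_eq_zero_iff.1 z3 with h | h
      · rcases mul_eq_zero.1 h with h | h
        · exact absurd h h1.ne'
        · exact pow_eq_zero_iff (two_ne_zero) |>.1 h
      · exact absurd h (mul_pos hXp hYZ).ne'
    have w4 : p + s = 0 := by
      rcases div_eq_zero_iff.1 z4 with h | h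
      · exact pow_eq_zero_iff (two_ne_zero) |>.1 h
      · exact absurd h hX0
    have hsp : s = -p := by linarith
    have hp0 : p = 0 := by
      have : p * X = 0 := by rw [hX]; rw [hsp] at w3; linarith
      rcases mul_eq_zero.1 this with h | h
      · exact h
      · exact absurd h hX0
    have hs0 : s = 0 := by rw [hsp, hp0, neg_zero]
    rw [hs0] at w1
    rw [hp0] at w2
    have hS0 : S = 0 := by
      have : Z * S = 0 := by linarith
      rcases mul_eq_zero.1 this with h | h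
      · exact absurd h hZ0
      · exact h
    have hP0 : P = 0 := by
      have : Y * P = 0 := by linarith
      rcases mul_eq_zero.1 this with h | h
      · exact absurd h hY0
      · exact h
    rw [hS0, hP0] at hne
    simp at hne

section Cyl

variable {F₁ F₂ : ℝ → ℝ}

theorem tauX_mem (x : E (Option α ⊕ β)) : tauX x ∈ Icc (0:ℝ) 1 := by
  unfold tauX
  constructor
  · positivity
  · rcases eq_or_ne x 0 with h | h
    · subst h; simp
    · have h1 : 0 < ‖x‖ ^ 2 := by positivity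
      rw [div_le_one h1, norm_split x]
      have : 0 ≤ ‖(prl x : E (Option α))‖ ^ 2 := by positivity
      linarith

theorem one_sub_tauX {x : E (Option α ⊕ β)} (hx : x ≠ 0) :
    1 - tauX x = ‖(prl x : E (Option α))‖ ^ 2 / ‖x‖ ^ 2 := by
  have h1 : ‖x‖ ^ 2 ≠ 0 := by
    have : 0 < ‖x‖ ^ 2 := by positivity
    exact this.ne'
  unfold tauX
  rw [eq_div_iff h1, sub_mul, one_mul, div_mul_cancel₀ _ h1, norm_split x]
  ring

theorem Gcyl_apply (x v w : E (Option α ⊕ β)) : Gcyl F₁ F₂ x v w =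
    (‖x‖ ^ 2)⁻¹ * ⟪x - x + v, w⟫ + F₁ (tauX x) * (omX x v * omX x w)
      + (F₂ (tauX x) * (‖x‖ ^ 4)⁻¹) * (‖(prl x : E (Option α))‖ ^ 2 *
        ⟪(prl v : E (Option α)), prl w⟫
        - ⟪(prl x : E (Option α)), prl v⟫ * ⟪(prl x : E (Option α)), prl w⟫) := by
  simp [Gcyl]

theorem omX_apply (x v : E (Option α ⊕ β)) : omX x v =
    (‖x‖ ^ 2)⁻¹ * (⟪(prr x : E β), prr v⟫ - tauX x * ⟪x, v⟫) := by
  simp [omX]

theorem omX_apply' {x : E (Option α ⊕ β)} (hx : x ≠ 0) (v : E (Option α ⊕ β)) : omX x v =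
    (‖(prl x : E (Option α))‖ ^ 2 * ⟪(prr x : E β), prr v⟫
      - ‖(prr x : E β)‖ ^ 2 * ⟪(prl x : E (Option α)), prl v⟫) / (‖x‖ ^ 2) ^ 2 := by
  have h1 : ‖x‖ ^ 2 ≠ 0 := by
    have : 0 < ‖x‖ ^ 2 := by positivity
    exact this.ne'
  rw [omX_apply, inner_split x v]
  unfold tauX
  rw [eq_div_iff (pow_ne_zero _ h1)]
  have e : ‖x‖ ^ 2 = ‖(prl x : E (Option α))‖ ^ 2 + ‖(prr x : E β)‖ ^ 2 := norm_split x
  have e2 : (‖x‖ ^ 2)⁻¹ * (⟪(prr x : E β), prr v⟫ - ‖(prr x : E β)‖ ^ 2 / ‖x‖ ^ 2 *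
      (⟪(prl x : E (Option α)), prl v⟫ + ⟪(prr x : E β), prr v⟫)) * (‖x‖ ^ 2) ^ 2 =
      ‖x‖ ^ 2 * ⟪(prr x : E β), prr v⟫ - ‖(prr x : E β)‖ ^ 2 *
      (⟪(prl x : E (Option α)), prl v⟫ + ⟪(prr x : E β), prr v⟫) := by
    field_simp
  rw [e2, e]
  ring

theorem tauX_smul {c : ℝ} (hc : 0 < c) (x : E (Option α ⊕ β)) : tauX (c • x) = tauX x := by
  unfold tauX
  rw [map_smul, norm_smul, norm_smul, mul_pow, mul_pow, mul_div_mul_left]
  have : 0 < ‖c‖ := norm_pos_iff.2 hc.ne'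
  positivity

theorem omX_smul {c : ℝ} (hc : 0 < c) (x v : E (Option α ⊕ β)) :
    omX (c • x) v = c⁻¹ * omX x v := by
  rw [omX_apply, omX_apply, tauX_smul hc, map_smul, norm_smul, inner_smul_left, inner_smul_left,
    mul_pow]
  have : ‖c‖ ^ 2 = c ^ 2 := by simp
  rw [this]
  simp only [conj_trivial]
  rcases eq_or_ne x 0 with h | h
  · subst h; simp
  · have h1 : ‖x‖ ^ 2 ≠ 0 := by
      have : 0 < ‖x‖ ^ 2 := by positivity
      exact this.ne'
    field_simp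

theorem contDiffOn_tauX : ContDiffOn ℝ ∞ (tauX : E (Option α ⊕ β) → ℝ) (Om (Option α ⊕ β)) := by
  unfold tauX
  apply ContDiffOn.div
  · exact ((contDiff_norm_sq ℝ).comp (prr : E (Option α ⊕ β) →L[ℝ] E β).contDiff).contDiffOn
  · exact (contDiff_norm_sq ℝ).contDiffOn
  · intro x hx
    have : 0 < ‖x‖ ^ 2 := by
      have := norm_pos_iff.2 hx
      positivity
    exact this.ne'

theorem contDiffOn_ninv (k : ℕ) : ContDiffOn ℝ ∞ (fun x : E (Option α ⊕ β) => (‖x‖ ^ (2 * k))⁻¹)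
    (Om (Option α ⊕ β)) := by
  have : (fun x : E (Option α ⊕ β) => (‖x‖ ^ (2 * k))⁻¹) =
      fun x : E (Option α ⊕ β) => ((‖x‖ ^ 2) ^ k)⁻¹ := by
    funext x; rw [pow_mul]
  rw [this]
  apply ContDiffOn.inv
  · exact ((contDiff_norm_sq ℝ).pow k).contDiffOn
  · intro x hx
    have := norm_pos_iff.2 hx
    positivity

theorem contDiff_coL {γ δ : Type} [Fintype γ] [DecidableEq γ] [Fintype δ] [DecidableEq δ] :
    ContDiff ℝ ∞ (coL : E (γ ⊕ δ) → E (γ ⊕ δ) →L[ℝ] ℝ) := by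
  unfold coL
  have h1 : ContDiff ℝ ∞ (fun y : E (γ ⊕ δ) => del γ (prl y)) :=
    (del γ).contDiff.comp (prl : E (γ ⊕ δ) →L[ℝ] E γ).contDiff
  exact h1.clm_comp contDiff_const

theorem contDiff_coR {γ δ : Type} [Fintype γ] [DecidableEq γ] [Fintype δ] [DecidableEq δ] :
    ContDiff ℝ ∞ (coR : E (γ ⊕ δ) → E (γ ⊕ δ) →L[ℝ] ℝ) := by
  unfold coR
  have h1 : ContDiff ℝ ∞ (fun y : E (γ ⊕ δ) => del δ (prr y)) :=
    (del δ).contDiff.comp (prr : E (γ ⊕ δ) →L[ℝ] E δ).contDiff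
  exact h1.clm_comp contDiff_const

theorem contDiffOn_omX :
    ContDiffOn ℝ ∞ (omX : E (Option α ⊕ β) → E (Option α ⊕ β) →L[ℝ] ℝ) (Om (Option α ⊕ β)) := by
  unfold omX
  apply ContDiffOn.fun_smul
  · exact contDiffOn_ninv 1
  · apply ContDiffOn.sub
    · exact contDiff_coR.contDiffOn
    · exact contDiffOn_tauX.smul (del _).contDiff.contDiffOn

theorem contDiffOn_rk {X V : Type*} [NormedAddCommGroup X] [NormedSpace ℝ X]
    [NormedAddCommGroup V] [NormedSpace ℝ V] {f : X → V →L[ℝ] ℝ} {U : Set X}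
    (hf : ContDiffOn ℝ ∞ f U) : ContDiffOn ℝ ∞ (fun x => rk (f x)) U := by
  unfold rk
  exact hf.smulRight hf

theorem contDiffOn_Gcyl (h1 : ContDiff ℝ ∞ F₁) (h2 : ContDiff ℝ ∞ F₂) :
    ContDiffOn ℝ ∞ (Gcyl F₁ F₂ : E (Option α ⊕ β) → Bil (E (Option α ⊕ β)))
      (Om (Option α ⊕ β)) := by
  unfold Gcyl
  apply ContDiffOn.add
  · apply ContDiffOn.add
    · exact (contDiffOn_ninv 1).smul contDiffOn_const
    · exact (h1.comp_contDiffOn contDiffOn_tauX).smul (contDiffOn_rk contDiffOn_omX)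
  · apply ContDiffOn.fun_smul
    · exact (h2.comp_contDiffOn contDiffOn_tauX).mul (contDiffOn_ninv 2)
    · apply ContDiffOn.sub
      · apply ContDiffOn.fun_smul _ contDiffOn_const
        exact ((contDiff_norm_sq ℝ).comp
          (prl : E (Option α ⊕ β) →L[ℝ] E (Option α)).contDiff).contDiffOn
      · exact contDiffOn_rk contDiff_coL.contDiffOn

theorem Gcyl_symm (x v w : E (Option α ⊕ β)) : Gcyl F₁ F₂ x v w = Gcyl F₁ F₂ x w v := by
  rw [Gcyl_apply, Gcyl_apply, sub_self, zero_add, zero_add, real_inner_comm w v,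
    real_inner_comm (prl w) (prl v)]
  ring

theorem Gcyl_pos {ρ : ℝ} (hρ : ρ < 1) (hF1 : ∀ τ, ρ ≤ τ → F₁ τ = 0) (hF2 : ∀ τ, ρ ≤ τ → F₂ τ = 0)
    (h1 : ∀ τ ∈ Ico (0:ℝ) 1, 0 < 1 + etaF F₁ τ * τ) (h2 : ∀ τ ∈ Ico (0:ℝ) 1, 0 < AF F₂ τ)
    {x : E (Option α ⊕ β)} (hx : x ≠ 0) {v : E (Option α ⊕ β)} (hv : v ≠ 0) :
    0 < Gcyl F₁ F₂ x v v := by
  have hX : 0 < ‖x‖ ^ 2 := by positivity
  have hV : 0 < ‖v‖ ^ 2 := by positivity
  have hτ := tauX_mem x
  rw [Gcyl_apply, sub_self, zero_add, real_inner_self_eq_norm_sq, real_inner_self_eq_norm_sq]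
  by_cases hτρ : ρ ≤ tauX x
  · rw [hF1 _ hτρ, hF2 _ hτρ]
    have : 0 < (‖x‖ ^ 2)⁻¹ * ‖v‖ ^ 2 := by positivity
    linarith
  · push Not at hτρ
    have hτ1 : tauX x < 1 := lt_trans hτρ hρ
    have e1 := one_sub_tauX hx
    have hY : 0 < ‖(prl x : E (Option α))‖ ^ 2 := by
      have h3 : 0 < 1 - tauX x := by linarith
      rw [e1] at h3
      by_contra hcon
      have : ‖(prl x : E (Option α))‖ ^ 2 / ‖x‖ ^ 2 ≤ 0 :=
        div_nonpos_of_nonpos_of_nonneg (not_lt.1 hcon) hX.le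
      linarith
    have hmem : tauX x ∈ Ico (0:ℝ) 1 := ⟨hτ.1, hτ1⟩
    have g1 := h1 _ hmem
    have g2 := h2 _ hmem
    have hs1 : 0 < 1 - tauX x := by linarith
    have key := pos_aux (F1 := F₁ (tauX x)) (F2 := F₂ (tauX x)) (norm_split x) hY
      (sq_nonneg ‖(prr x : E β)‖) (sq_nonneg ‖(prl v : E (Option α))‖)
      (sq_nonneg ‖(prr v : E β)‖)
      (p := ⟪(prl x : E (Option α)), prl v⟫) (s := ⟪(prr x : E β), prr v⟫)
      (by
        have := abs_real_inner_le_norm (prl x : E (Option α)) (prl v)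
        rw [← sq_abs, ← mul_pow]
        exact pow_le_pow_left₀ (abs_nonneg _) this 2)
      (by
        have := abs_real_inner_le_norm (prr x : E β) (prr v)
        rw [← sq_abs, ← mul_pow]
        exact pow_le_pow_left₀ (abs_nonneg _) this 2)
      (by
        have e3 : ‖(prl x : E (Option α))‖ ^ 2 * ‖(prr x : E β)‖ ^ 2 / (‖x‖ ^ 2) ^ 2 =
            (1 - tauX x) * tauX x := by
          rw [e1]; unfold tauX; rw [div_mul_div_comm, sq (‖x‖ ^ 2)]
        rw [e3]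
        have e4 : 1 + F₁ (tauX x) * ((1 - tauX x) * tauX x) =
            (1 - tauX x) * (1 + etaF F₁ (tauX x) * tauX x) := by
          unfold etaF
          field_simp
          ring
        rw [e4]
        exact mul_pos hs1 g1)
      (by
        rw [← e1]
        have e4 : AF F₂ (tauX x) = (1 - tauX x) * (1 + F₂ (tauX x) * (1 - tauX x)) := by
          unfold AF; ring
        rw [e4] at g2
        exact (pos_iff_pos_of_mul_pos g2).1 hs1)
      (by rw [← norm_split v]; exact hV)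
    rw [← norm_split v] at key
    rw [omX_apply' hx]
    have e5 : (‖x‖ ^ 4 : ℝ) = (‖x‖ ^ 2) ^ 2 := by ring
    rw [e5]
    calc 0 < _ := key
      _ = _ := by rw [div_eq_inv_mul]; ring

theorem Gcyl_radial {x : E (Option α ⊕ β)} (hx : x ≠ 0) (w : E (Option α ⊕ β)) :
    Gcyl F₁ F₂ x x w = ⟪x, w⟫ / ‖x‖ ^ 2 := by
  have hX : 0 < ‖x‖ ^ 2 := by positivity
  have h0 : omX x x = 0 := by
    rw [omX_apply' hx, real_inner_self_eq_norm_sq, real_inner_self_eq_norm_sq]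
    rw [mul_comm, sub_self, zero_div]
  rw [Gcyl_apply, h0, sub_self, zero_add, real_inner_self_eq_norm_sq]
  rw [zero_mul, mul_zero, sub_self, mul_zero, add_zero, add_zero, div_eq_inv_mul]

theorem Gcyl_homog {c : ℝ} (hc : 0 < c) {x : E (Option α ⊕ β)} (hx : x ≠ 0) :
    Gcyl F₁ F₂ (c • x) = (c ^ 2)⁻¹ • Gcyl F₁ F₂ x := by
  ext v w
  have hX : 0 < ‖x‖ ^ 2 := by positivity
  have hX' : ‖x‖ ≠ 0 := by positivity
  have hc' : ‖c‖ = c := by rw [Real.norm_eq_abs, abs_of_pos hc]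
  simp only [ContinuousLinearMap.smul_apply, smul_eq_mul]
  rw [Gcyl_apply, Gcyl_apply, tauX_smul hc, omX_smul hc, omX_smul hc, sub_self, sub_self,
    map_smul, norm_smul, norm_smul, hc', inner_smul_left, inner_smul_left]
  simp only [conj_trivial, zero_add]
  field_simp

theorem isCyl_Gcyl {ρ : ℝ} (h1 : ContDiff ℝ ∞ F₁) (h2 : ContDiff ℝ ∞ F₂) (hρ : ρ < 1)
    (hF1 : ∀ τ, ρ ≤ τ → F₁ τ = 0) (hF2 : ∀ τ, ρ ≤ τ → F₂ τ = 0)
    (h3 : ∀ τ ∈ Ico (0:ℝ) 1, 0 < 1 + etaF F₁ τ * τ) (h4 : ∀ τ ∈ Ico (0:ℝ) 1, 0 < AF F₂ τ) :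
    IsCyl (Gcyl F₁ F₂ : E (Option α ⊕ β) → Bil (E (Option α ⊕ β))) where
  metric :=
    { isOpen := isOpen_ne
      smooth := contDiffOn_Gcyl h1 h2
      symm := fun x _ v w => Gcyl_symm x v w
      pos := fun x hx v hv => Gcyl_pos hρ hF1 hF2 h3 h4 hx hv }
  homog := fun c hc x hx => Gcyl_homog hc hx
  radial := fun x hx w => Gcyl_radial hx w

theorem prof_F (h1 : ContDiff ℝ ∞ F₁) (h2 : ContDiff ℝ ∞ F₂)
    (h3 : ∀ τ ∈ Ico (0:ℝ) 1, 0 < 1 + etaF F₁ τ * τ) (h4 : ∀ τ ∈ Ico (0:ℝ) 1, 0 < AF F₂ τ) :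
    Prof (etaF F₁) (AF F₂) 1 where
  pos := one_pos
  smoothη := by
    unfold etaF
    apply h1.contDiffOn.add
    apply ContDiffOn.inv
    · exact contDiffOn_const.sub contDiffOn_id
    · intro τ hτ
      have : τ < 1 := hτ
      have h : (0:ℝ) < 1 - τ := by linarith
      exact h.ne'
  smoothA := by
    unfold AF
    have h : ContDiffOn ℝ ∞ (fun τ : ℝ => 1 - τ) (Iio 1) := contDiffOn_const.sub contDiffOn_id
    exact h.add ((h.pow 2).mul h2.contDiffOn)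
  η_pos := h3
  A_pos := h4

/-- `x ↦ |y|² ⟨v,w⟩ - (y·v)(y·w)`: bound -/
theorem proj_bound {V : Type*} [NormedAddCommGroup V] [InnerProductSpace ℝ V] (y v w : V) :
    |‖y‖ ^ 2 * ⟪v, w⟫ - ⟪y, v⟫ * ⟪y, w⟫| ≤ ‖y‖ ^ 2 * (‖v‖ * ‖w‖) := by
  rcases eq_or_ne y 0 with h | h
  · subst h; simp
  have hy : 0 < ‖y‖ ^ 2 := by positivity
  have hy' : ‖y‖ ^ 2 ≠ 0 := hy.ne'
  set a := v - (⟪y, v⟫ / ‖y‖ ^ 2) • y with ha
  have hya : ⟪y, a⟫ = 0 := by
    rw [ha, inner_sub_right, inner_smul_right, real_inner_self_eq_norm_sq,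
      div_mul_cancel₀ _ hy', sub_self]
  have e1 : ‖y‖ ^ 2 * ⟪v, w⟫ - ⟪y, v⟫ * ⟪y, w⟫ = ‖y‖ ^ 2 * ⟪a, w⟫ := by
    rw [ha, inner_sub_left, inner_smul_left]
    simp only [conj_trivial]
    field_simp
  have hnv : ‖a‖ ≤ ‖v‖ := by
    have e2 : ‖v‖ ^ 2 = ‖a‖ ^ 2 + ‖(⟪y, v⟫ / ‖y‖ ^ 2) • y‖ ^ 2 := by
      have : v = a + (⟪y, v⟫ / ‖y‖ ^ 2) • y := by rw [ha]; simp
      conv_lhs => rw [this]
      rw [norm_add_sq_real, inner_smul_right, real_inner_comm y a, hya]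
      ring
    have : ‖a‖ ^ 2 ≤ ‖v‖ ^ 2 := by rw [e2]; nlinarith [sq_nonneg ‖(⟪y, v⟫ / ‖y‖ ^ 2) • y‖]
    exact le_of_sq_le_sq this (norm_nonneg _)
  rw [e1, abs_mul, abs_of_pos hy]
  apply mul_le_mul_of_nonneg_left _ hy.le
  exact (abs_real_inner_le_norm a w).trans (mul_le_mul_of_nonneg_right hnv (norm_nonneg _))

/-- the embedding of the second factor -/
def emr (z : E β) : E (Option α ⊕ β) := WithLp.toLp 2 (Sum.elim (fun _ => 0) (fun j => z j))

theorem omX_bound {x : E (Option α ⊕ β)} (hx : ‖x‖ = 1) (v : E (Option α ⊕ β)) :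
    |omX x v| ≤ √(tauX x) * ‖v‖ := by
  have hx0 : x ≠ 0 := by rintro rfl; simp at hx
  have hτ := tauX_mem x
  have hτe : tauX x = ‖(prr x : E β)‖ ^ 2 := by unfold tauX; rw [hx]; simp
  set y : E (Option α ⊕ β) := (emr (prr x) : E (Option α ⊕ β)) - tauX x • x with hy
  have hem : ∀ v : E (Option α ⊕ β), ⟪(emr (prr x) : E (Option α ⊕ β)), v⟫
      = ⟪(prr x : E β), prr v⟫ := by
    intro v
    simp [emr, PiLp.inner_apply, Fintype.sum_sum_type]
  have e1 : omX x v = ⟪y, v⟫ := by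
    rw [omX_apply, hx, hy, inner_sub_left, inner_smul_left, hem]
    simp
  have e2 : ‖y‖ ^ 2 = tauX x - tauX x ^ 2 := by
    rw [← real_inner_self_eq_norm_sq]
    conv_lhs => rw [hy]
    have : (prr (emr (prr x) : E (Option α ⊕ β)) : E β) = prr x := by
      ext i; simp [emr]
    rw [inner_sub_left, inner_sub_right, inner_sub_right, inner_smul_left, inner_smul_right,
      inner_smul_left, inner_smul_right, hem, hem, real_inner_comm (emr (prr x)) x, hem, this,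
      real_inner_self_eq_norm_sq (prr x), real_inner_self_eq_norm_sq x, hx, ← hτe]
    simp only [conj_trivial]
    ring
  have e3 : ‖y‖ ≤ √(tauX x) := by
    apply Real.le_sqrt_of_sq_le
    rw [e2]; nlinarith [sq_nonneg (tauX x)]
  rw [e1]
  exact (abs_real_inner_le_norm y v).trans (mul_le_mul_of_nonneg_right e3 (norm_nonneg _))

theorem Gcyl_bound {C₁ C₂ : ℝ} (h1 : ∀ τ ∈ Icc (0:ℝ) 1, |F₁ τ| * τ ≤ C₁)
    (h2 : ∀ τ ∈ Icc (0:ℝ) 1, |F₂ τ| ≤ C₂) {x : E (Option α ⊕ β)} (hx : ‖x‖ = 1) :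
    ‖Gcyl F₁ F₂ x - del _‖ ≤ C₁ + C₂ := by
  have hτ := tauX_mem x
  have hC1 : 0 ≤ C₁ := le_trans (by simp) (h1 0 ⟨le_rfl, zero_le_one⟩)
  have hC2 : 0 ≤ C₂ := le_trans (abs_nonneg _) (h2 0 ⟨le_rfl, zero_le_one⟩)
  apply ContinuousLinearMap.opNorm_le_bound₂ _ (add_nonneg hC1 hC2)
  intro v w
  simp only [ContinuousLinearMap.sub_apply, del_apply]
  rw [Gcyl_apply, hx, sub_self, zero_add]
  simp only [one_pow, inv_one, one_mul, mul_one]
  have b1 : |F₁ (tauX x) * (omX x v * omX x w)| ≤ C₁ * ‖v‖ * ‖w‖ := by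
    rw [abs_mul, abs_mul]
    calc |F₁ (tauX x)| * (|omX x v| * |omX x w|)
        ≤ |F₁ (tauX x)| * ((√(tauX x) * ‖v‖) * (√(tauX x) * ‖w‖)) := by
          gcongr
          · exact omX_bound hx v
          · exact omX_bound hx w
      _ = (|F₁ (tauX x)| * (√(tauX x) * √(tauX x))) * ‖v‖ * ‖w‖ := by ring
      _ = (|F₁ (tauX x)| * tauX x) * ‖v‖ * ‖w‖ := by rw [Real.mul_self_sqrt hτ.1]
      _ ≤ C₁ * ‖v‖ * ‖w‖ := by
          gcongr
          exact h1 _ hτ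
  have nl : ∀ u : E (Option α ⊕ β), ‖(prl u : E (Option α))‖ ≤ ‖u‖ := by
    intro u
    apply le_of_sq_le_sq _ (norm_nonneg _)
    rw [norm_split u]
    nlinarith [sq_nonneg ‖(prr u : E β)‖]
  have b2 : |F₂ (tauX x) * (‖(prl x : E (Option α))‖ ^ 2 * ⟪(prl v : E (Option α)), prl w⟫
        - ⟪(prl x : E (Option α)), prl v⟫ * ⟪(prl x : E (Option α)), prl w⟫)|
      ≤ C₂ * ‖v‖ * ‖w‖ := by
    rw [abs_mul]
    calc _ ≤ |F₂ (tauX x)| * (‖(prl x : E (Option α))‖ ^ 2 *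
          (‖(prl v : E (Option α))‖ * ‖(prl w : E (Option α))‖)) := by
          gcongr
          exact proj_bound _ _ _
      _ ≤ C₂ * (1 ^ 2 * (‖v‖ * ‖w‖)) := by
          gcongr
          · exact h2 _ hτ
          · rw [← hx]; exact nl x
          · exact nl v
          · exact nl w
      _ = C₂ * ‖v‖ * ‖w‖ := by ring
  have e : ⟪v, w⟫ + F₁ (tauX x) * (omX x v * omX x w) +
      F₂ (tauX x) * (‖(prl x : E (Option α))‖ ^ 2 * ⟪(prl v : E (Option α)), prl w⟫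
        - ⟪(prl x : E (Option α)), prl v⟫ * ⟪(prl x : E (Option α)), prl w⟫) - ⟪v, w⟫ =
      F₁ (tauX x) * (omX x v * omX x w) +
      F₂ (tauX x) * (‖(prl x : E (Option α))‖ ^ 2 * ⟪(prl v : E (Option α)), prl w⟫
        - ⟪(prl x : E (Option α)), prl v⟫ * ⟪(prl x : E (Option α)), prl w⟫) := by ring
  rw [e, Real.norm_eq_abs]
  calc _ ≤ _ := abs_add_le _ _
    _ ≤ C₁ * ‖v‖ * ‖w‖ + C₂ * ‖v‖ * ‖w‖ := add_le_add b1 b2
    _ = (C₁ + C₂) * ‖v‖ * ‖w‖ := by ring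

end Cyl

end Pool.Agent.RF.H80
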