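import Pool.Agent.Helper36_RF.MainMod

/-!
# ZORN: maximal Ricci flows (helper80, squad MP_a23110_gt)
-/

noncomputable section

open scoped ContDiff Topology RealInnerProductSpace Manifold
set_option maxSynthPendingDepth 3
set_option linter.unusedSectionVars false
open Set

namespace Pool.Agent.RF.H80

open Pool.Agent.RF

variable {n : ℕ} {M : Type} [TopologicalSpace M] [ChartedSpace (EuclideanSpace ℝ (Fin n)) M]

theorem tI_coe (T : ℝ) : tI (T : EReal) = Ico 0 T := by
  ext t
  simp [tI]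

theorem isFlowE_coe {T : ℝ} {g : ℝ → TField n M} (h : IsRicciFlow T g) :
    IsFlowE (T : EReal) g where
  metric := by rw [tI_coe]; exact h.metric
  smooth := by rw [tI_coe]; exact h.smooth
  flow := by rw [tI_coe]; exact h.flow

/-- extension relation -/
def Ext (a b : EReal × (ℝ → TField n M)) : Prop :=
  a.1 ≤ b.1 ∧ ∀ t ∈ tI a.1, b.2 t = a.2 t

theorem tI_mono {a b : EReal} (h : a ≤ b) : tI a ⊆ tI b := fun _ ht => ⟨ht.1, ht.2.trans_le h⟩

theorem isOpen_lt_coe (a : EReal) : IsOpen {t : ℝ | (t : EReal) < a} :=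
  isOpen_Iio.preimage continuous_coe_real_ereal

theorem zorn : ZornStatement := by
  intro n M _ _ T g hT hg
  classical
  let α := {p : EReal × (ℝ → TField n M) //
    IsFlowE p.1 p.2 ∧ (T : EReal) ≤ p.1 ∧ ∀ t ∈ Ico 0 T, p.2 t = g t}
  let r : α → α → Prop := fun a b => Ext a.1 b.1
  have hr : ∀ {a b c : α}, r a b → r b c → r a c := by
    intro a b c hab hbc
    exact ⟨hab.1.trans hbc.1, fun t ht => (hbc.2 t (tI_mono hab.1 ht)).trans (hab.2 t ht)⟩
  obtain ⟨m, hm⟩ : ∃ m : α, ∀ a : α, r m a → r a m := by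
    refine exists_maximal_of_chains_bounded (r := r) ?_ hr
    intro c hc
    by_cases hne : c = ∅
    · refine ⟨⟨((T : EReal), g), isFlowE_coe hg, le_rfl, fun t _ => rfl⟩, fun a ha => ?_⟩
      rw [hne] at ha
      exact absurd ha (notMem_empty _)
    · obtain ⟨a₀, ha₀⟩ := nonempty_iff_ne_empty.2 hne
      let S : EReal := sSup ((fun a : α => a.1.1) '' c)
      let G : ℝ → TField n M := fun t =>
        if h : ∃ a : α, a ∈ c ∧ t ∈ tI a.1.1 then h.choose.1.2 t else g t
      have hle : ∀ a ∈ c, a.1.1 ≤ S := fun a ha => le_sSup ⟨a, ha, rfl⟩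
      have hG : ∀ a ∈ c, ∀ t ∈ tI a.1.1, G t = a.1.2 t := by
        intro a ha t ht
        have h : ∃ a : α, a ∈ c ∧ t ∈ tI a.1.1 := ⟨a, ha, ht⟩
        have e : G t = h.choose.1.2 t := dif_pos h
        rw [e]
        obtain ⟨h1, h2⟩ := h.choose_spec
        by_cases hab : h.choose = a
        · rw [hab]
        · rcases hc h1 ha hab with h3 | h3
          · exact (h3.2 t h2).symm
          · exact h3.2 t ht
      have hex : ∀ t ∈ tI S, ∃ a ∈ c, t ∈ tI a.1.1 := by
        intro t ht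
        obtain ⟨b, ⟨a, ha, rfl⟩, hb⟩ := lt_sSup_iff.1 ht.2
        exact ⟨a, ha, ht.1, hb⟩
      have hflow : IsFlowE S G := by
        refine ⟨?_, ?_, ?_⟩
        · intro t ht
          obtain ⟨a, ha, hta⟩ := hex t ht
          rw [hG a ha t hta]
          exact a.2.1.metric t hta
        · intro e he q hq
          obtain ⟨a, ha, hta⟩ := hex q.1 hq.1
          have h1 := (a.2.1.smooth e he) q ⟨hta, hq.2⟩
          have h2 : ContDiffWithinAt ℝ ∞ (fun q : ℝ × E (Fin n) => locRep (G q.1) e q.2)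
              (tI a.1.1 ×ˢ e.target) q := by
            apply h1.congr
            · intro z hz
              rw [hG a ha z.1 hz.1]
            · rw [hG a ha q.1 hta]
          apply h2.mono_of_mem_nhdsWithin
          have hopen : IsOpen {z : ℝ × E (Fin n) | (z.1 : EReal) < a.1.1} :=
            (isOpen_lt_coe a.1.1).preimage continuous_fst
          have hmem : {z : ℝ × E (Fin n) | (z.1 : EReal) < a.1.1} ∈ 𝓝 q := hopen.mem_nhds hta.2
          filter_upwards [self_mem_nhdsWithin, mem_nhdsWithin_of_mem_nhds hmem] with z hz hz2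
          exact ⟨⟨hz.1.1, hz2⟩, hz.2⟩
        · intro e he t ht y hy v w
          obtain ⟨a, ha, hta⟩ := hex t ht
          have h1 := a.2.1.flow e he t hta y hy v w
          have h2 : HasDerivWithinAt (fun s => locRep (G s) e y v w)
              (-2 * ric (locRep (G t) e) y v w) (tI a.1.1) t := by
            rw [hG a ha t hta]
            apply h1.congr
            · intro s hs
              rw [hG a ha s hs]
            · rw [hG a ha t hta]
          apply h2.mono_of_mem_nhdsWithin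
          have hmem : {s : ℝ | (s : EReal) < a.1.1} ∈ 𝓝 t := (isOpen_lt_coe a.1.1).mem_nhds hta.2
          filter_upwards [self_mem_nhdsWithin, mem_nhdsWithin_of_mem_nhds hmem] with s hs hs2
          exact ⟨hs.1, hs2⟩
      refine ⟨⟨(S, G), hflow, a₀.2.2.1.trans (hle a₀ ha₀), ?_⟩, fun a ha => ⟨hle a ha, hG a ha⟩⟩
      intro t ht
      have ht2 : t ∈ tI a₀.1.1 := ⟨ht.1, lt_of_lt_of_le (by exact_mod_cast ht.2) a₀.2.2.1⟩
      show G t = g t
      rw [hG a₀ ha₀ t ht2]
      exact a₀.2.2.2 t ht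
  refine ⟨m.1.1, m.1.2, m.2.2.1, ⟨m.2.1, ?_⟩, m.2.2.2⟩
  intro T' g' hTT hg' hext
  have h1 : IsFlowE T' g' ∧ (T : EReal) ≤ T' ∧ ∀ t ∈ Ico 0 T, g' t = g t := by
    refine ⟨hg', m.2.2.1.trans hTT.le, fun t ht => ?_⟩
    have ht2 : t ∈ tI m.1.1 := ⟨ht.1, lt_of_lt_of_le (by exact_mod_cast ht.2) m.2.2.1⟩
    rw [hext t ht2]
    exact m.2.2.2 t ht
  have h2 := hm ⟨(T', g'), h1⟩ ⟨hTT.le, hext⟩
  exact absurd h2.1 (not_le.2 hTT)

end Pool.Agent.RF.H80
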